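import Pool.Agent.Y382.PAR.Stm

/-! Groups of order 1, 3, 5 (part S_SML of project PAR of helper382; proof by helper43). -/

set_option autoImplicit false

namespace Pool.Agent.Y43.PAR

open Pool.Agent.Y382.PAR

universe u

/-- the sign of a map given by its values -/
def sv {n : ℕ} (g : Fin n → Fin n) : ℤˣ :=
  ∏ j, ∏ i ∈ Finset.Iio j, if g i < g j then 1 else -1

theorem d3 : ∀ a b c : Fin 3, Function.Injective ![a, b, c] →
    Function.Injective (fun x => x + ![a, b, c] x) → sv ![a, b, c] = 1 →
    sv (fun x => x + ![a, b, c] x) = 1 → False := by decide +kernel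

theorem d5 : ∀ a b c d e : Fin 5, Function.Injective ![a, b, c, d, e] →
    Function.Injective (fun x => x + ![a, b, c, d, e] x) → sv ![a, b, c, d, e] = 1 →
    sv (fun x => x + ![a, b, c, d, e] x) = 1 → False := by decide +kernel

theorem eta3 (g : Fin 3 → Fin 3) : ![g 0, g 1, g 2] = g := by
  funext i
  fin_cases i <;> rfl

theorem eta5 (g : Fin 5 → Fin 5) : ![g 0, g 1, g 2, g 3, g 4] = g := by
  funext i
  fin_cases i <;> rfl

theorem sv_sign {n : ℕ} (f : Equiv.Perm (Fin n)) : sv f = Equiv.Perm.sign f :=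
  (Equiv.Perm.sign_eq_prod_prod_Iio f).symm

theorem no3 (f F : Equiv.Perm (Fin 3)) (h : ∀ x, F x = x + f x) (h1 : Equiv.Perm.sign f = 1)
    (h2 : Equiv.Perm.sign F = 1) : False := by
  have hF : (fun x => x + f x) = F := funext fun x => (h x).symm
  have key := d3 (f 0) (f 1) (f 2)
  rw [eta3 f, hF] at key
  exact key f.injective F.injective (by rw [sv_sign, h1]) (by rw [sv_sign, h2])

theorem no5 (f F : Equiv.Perm (Fin 5)) (h : ∀ x, F x = x + f x) (h1 : Equiv.Perm.sign f = 1)
    (h2 : Equiv.Perm.sign F = 1) : False := by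
  have hF : (fun x => x + f x) = F := funext fun x => (h x).symm
  have key := d5 (f 0) (f 1) (f 2) (f 3) (f 4)
  rw [eta5 f, hF] at key
  exact key f.injective F.injective (by rw [sv_sign, h1]) (by rw [sv_sign, h2])

theorem transport {G : Type u} [Group G] [Finite G] {n : ℕ} [NeZero n] (e : G ≃ Fin n)
    (he : ∀ x y, e (x * y) = e x + e y)
    (hno : ∀ f F : Equiv.Perm (Fin n), (∀ x, F x = x + f x) → Equiv.Perm.sign f = 1 →
      Equiv.Perm.sign F = 1 → False) : ¬ AllPar G := by
  classical
  have := Fintype.ofFinite G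
  intro h
  obtain ⟨f, F, hF, h1, h2⟩ := h 1 1
  refine hno (e.permCongr f) (e.permCongr F) (fun x => ?_) ?_ ?_
  · rw [Equiv.permCongr_apply, Equiv.permCongr_apply, hF, he, Equiv.apply_symm_apply]
  · rw [Equiv.Perm.sign_permCongr, ← sgn_eq, h1]
  · rw [Equiv.Perm.sign_permCongr, ← sgn_eq, h2]

theorem t_SML : S_SML.{u} := by
  intro G _ _ hG
  rcases hG with hG | hG | hG
  · intro h
    obtain ⟨f, F, -, h1, -⟩ := h (-1) 1
    have hs : Subsingleton G := (Nat.card_eq_one_iff_unique.1 hG).1
    have hf : f = 1 := Equiv.ext fun x => Subsingleton.elim _ _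
    classical
    have := Fintype.ofFinite G
    rw [sgn_eq, hf, Equiv.Perm.sign_one] at h1
    exact absurd h1 (by decide)
  · have : Fact (Nat.Prime 3) := ⟨Nat.prime_three⟩
    have e : G ≃* Multiplicative (ZMod 3) := mulEquivOfPrimeCardEq (p := 3) hG (by
      rw [Nat.card_congr Multiplicative.toAdd, Nat.card_zmod])
    exact transport (n := 3) (e.toEquiv.trans Multiplicative.toAdd : G ≃ ZMod 3)
      (fun x y => by
        show Multiplicative.toAdd (e (x * y)) = Multiplicative.toAdd (e x) +
          Multiplicative.toAdd (e y)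
        rw [map_mul, toAdd_mul]) no3
  · have : Fact (Nat.Prime 5) := ⟨Nat.prime_five⟩
    have e : G ≃* Multiplicative (ZMod 5) := mulEquivOfPrimeCardEq (p := 5) hG (by
      rw [Nat.card_congr Multiplicative.toAdd, Nat.card_zmod])
    exact transport (n := 5) (e.toEquiv.trans Multiplicative.toAdd : G ≃ ZMod 5)
      (fun x y => by
        show Multiplicative.toAdd (e (x * y)) = Multiplicative.toAdd (e x) +
          Multiplicative.toAdd (e y)
        rw [map_mul, toAdd_mul]) no5

end Pool.Agent.Y43.PAR
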